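import Mathlib

set_option autoImplicit false

namespace Pool.Agent.Results.MP_3e1131_co.Bounded

/-- `M` contains a copy `a S + b` of `S` with `a ≥ 1` and `b` an integer. -/
def HasCopy (S M : Finset ℕ) : Prop :=
  ∃ a : ℕ, 1 ≤ a ∧ ∃ b : ℤ, ∀ s ∈ S, ∃ m ∈ M, (m : ℤ) = a * s + b

/-- `Wins S k M B`: Maker owns `M`, Breaker owns `B`, Maker is to move, and Maker can force a copy
of `S` using at most `k` further selections of his own, whatever Breaker does. -/
def Wins (S : Finset ℕ) : ℕ → Finset ℕ → Finset ℕ → Prop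
  | 0, _, _ => False
  | k + 1, M, B => ∃ x, x ∉ M ∧ x ∉ B ∧ (HasCopy S (insert x M) ∨
      ∀ y, y ∉ insert x M → y ∉ B → Wins S k (insert x M) (insert y B))

lemma HasCopy.mono {S M M' : Finset ℕ} (h : HasCopy S M) (hM : M ⊆ M') : HasCopy S M' := by
  obtain ⟨a, ha, b, h⟩ := h
  refine ⟨a, ha, b, fun s hs => ?_⟩
  obtain ⟨m, hm, e⟩ := h s hs
  exact ⟨m, hM hm, e⟩

/-- auxiliary finite game on the free cells `F`; the flag says whether the owner of `X` moves. -/
def W (S : Finset ℕ) : ℕ → Bool → Finset ℕ → Finset ℕ → Prop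
  | 0, _, X, _ => HasCopy S X
  | n + 1, true, X, F => ∃ x ∈ F, W S n false (insert x X) (F.erase x)
  | n + 1, false, X, F => F.Nonempty ∧ ∀ y ∈ F, W S n true X (F.erase y)

lemma dicho (S : Finset ℕ) (n : ℕ) : ∀ X Y F : Finset ℕ, F.card = n →
    (∀ X' Y', X ⊆ X' → Y ⊆ Y' → F ⊆ X' ∪ Y' → HasCopy S X' ∨ HasCopy S Y') →
    W S n true X F ∨ W S n false Y F := by
  induction n with
  | zero =>
    intro X Y F hF h
    have : F = ∅ := Finset.card_eq_zero.1 hF
    exact h X Y le_rfl le_rfl (by simp [this])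
  | succ n ih =>
    intro X Y F hF h
    by_cases c : W S (n + 1) true X F
    · exact Or.inl c
    · right
      refine ⟨Finset.card_pos.1 (by omega), fun y hy => ?_⟩
      have h1 := ih Y (insert y X) (F.erase y) (by rw [Finset.card_erase_of_mem hy]; omega) (by
        intro Y' X' hY hX hF'
        refine (h X' Y' ((Finset.subset_insert y X).trans hX) hY ?_).symm
        intro z hz
        by_cases e : z = y
        · subst e
          exact Finset.mem_union_left _ (hX (Finset.mem_insert_self _ _))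
        · rw [Finset.union_comm]
          exact hF' (Finset.mem_erase.2 ⟨e, hz⟩))
      rcases h1 with h1 | h1
      · exact h1
      · exact absurd ⟨y, hy, h1⟩ c

lemma fresh (M B : Finset ℕ) : ∃ x, x ∉ M ∧ x ∉ B := by
  obtain ⟨x, hx⟩ := Infinite.exists_notMem_finset (M ∪ B)
  exact ⟨x, fun h => hx (Finset.mem_union_left _ h), fun h => hx (Finset.mem_union_right _ h)⟩

lemma wins_succ (S : Finset ℕ) (k : ℕ) : ∀ M B, Wins S k M B → Wins S (k + 1) M B := by
  induction k with
  | zero => intro M B h; exact h.elim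
  | succ k ih =>
    rintro M B ⟨x, h1, h2, h⟩
    refine ⟨x, h1, h2, h.imp id fun h y hy1 hy2 => ih _ _ (h y hy1 hy2)⟩

lemma wins_of_copy (S M B : Finset ℕ) (k : ℕ) (h : HasCopy S M) : Wins S (k + 1) M B := by
  obtain ⟨x, h1, h2⟩ := fresh M B
  exact ⟨x, h1, h2, Or.inl (h.mono (Finset.subset_insert _ _))⟩

lemma transfer (S : Finset ℕ) (n : ℕ) :
    (∀ X F M B, W S n true X F → X ⊆ M → Disjoint F B → Wins S (n + 1) M B) ∧
    (∀ X F M B, W S n false X F → X ⊆ M → Disjoint F B →
      ∀ y, Wins S (n + 1) M (insert y B)) := by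
  induction n with
  | zero =>
    exact ⟨fun X F M B h hX _ => wins_of_copy S M B 0 (HasCopy.mono h hX),
      fun X F M B h hX _ y => wins_of_copy S M _ 0 (HasCopy.mono h hX)⟩
  | succ n ih =>
    constructor
    · rintro X F M B ⟨x, hx, h⟩ hX hD
      have hD' : Disjoint (F.erase x) B := hD.mono_left (Finset.erase_subset _ _)
      by_cases c : x ∈ M
      · obtain ⟨z, h1, h2⟩ := fresh M B
        refine ⟨z, h1, h2, Or.inr fun y _ _ => ih.2 _ _ _ _ h ?_ hD' y⟩
        exact (Finset.insert_subset c hX).trans (Finset.subset_insert _ _)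
      · refine ⟨x, c, Finset.disjoint_left.1 hD hx, Or.inr fun y _ _ => ih.2 _ _ _ _ h ?_ hD' y⟩
        exact Finset.insert_subset_insert _ hX
    · rintro X F M B ⟨⟨y0, hy0⟩, h⟩ hX hD y
      apply wins_succ
      by_cases c : y ∈ F
      · refine ih.1 _ _ _ _ (h y c) hX ?_
        rw [Finset.disjoint_insert_right]
        exact ⟨Finset.notMem_erase _ _, hD.mono_left (Finset.erase_subset _ _)⟩
      · refine ih.1 _ _ _ _ (h y0 hy0) hX ?_
        rw [Finset.disjoint_insert_right]
        exact ⟨fun h => c (Finset.mem_of_mem_erase h), hD.mono_left (Finset.erase_subset _ _)⟩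

lemma wins_le (S M B : Finset ℕ) (k l : ℕ) (h : Wins S k M B) (hkl : k ≤ l) : Wins S l M B := by
  induction l, hkl using Nat.le_induction with
  | base => exact h
  | succ l _ ih => exact wins_succ S l M B ih

lemma board (n : ℕ) : ∃ N : ℕ, ∀ S : Finset ℕ, S.card = n → ∃ V : Finset ℕ, V.card ≤ N ∧
    ∀ X Y : Finset ℕ, V ⊆ X ∪ Y → HasCopy S X ∨ HasCopy S Y := by
  classical
  obtain ⟨ι, inst, hι⟩ := Combinatorics.Line.exists_mono_in_high_dimension (Fin n) Bool
  refine ⟨Fintype.card (ι → Fin n), fun S hS => ?_⟩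
  let e : Fin n ≃ S := (S.equivFinOfCardEq hS).symm
  let φ : (ι → Fin n) → ℕ := fun v => ∑ i, (e (v i) : ℕ)
  refine ⟨Finset.univ.image φ, Finset.card_image_le, fun X Y hXY => ?_⟩
  obtain ⟨l, c, hl⟩ := hι fun v => decide (φ v ∈ X)
  set s : Finset ι := Finset.univ.filter fun i => l.idxFun i = none with hs
  have hpos : 1 ≤ s.card := Finset.card_pos.mpr ⟨l.proper.choose, by
    rw [hs, Finset.mem_filter]
    exact ⟨Finset.mem_univ _, l.proper.choose_spec⟩⟩
  have key : ∀ x : Fin n, φ (l x) = s.card * (e x : ℕ) +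
      ∑ i ∈ sᶜ, ((l.idxFun i).map fun y => (e y : ℕ)).getD 0 := by
    intro x
    simp only [φ]
    rw [← Finset.sum_add_sum_compl s]
    congr 1
    · rw [← smul_eq_mul, ← Finset.sum_const]
      apply Finset.sum_congr rfl
      intro i hi
      rw [hs, Finset.mem_filter] at hi
      rw [l.apply_none _ _ hi.right]
    · apply Finset.sum_congr rfl
      intro i hi
      rw [hs, Finset.compl_filter, Finset.mem_filter] at hi
      obtain ⟨y, hy⟩ := Option.ne_none_iff_exists.mp hi.right
      simp [← hy, Option.map_some, Option.getD]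
  have fin : ∀ Z : Finset ℕ, (∀ x, φ (l x) ∈ Z) → HasCopy S Z := by
    intro Z hZ
    refine ⟨s.card, hpos,
      ((∑ i ∈ sᶜ, ((l.idxFun i).map fun y => (e y : ℕ)).getD 0 : ℕ) : ℤ), fun t ht => ?_⟩
    refine ⟨φ (l (e.symm ⟨t, ht⟩)), hZ _, ?_⟩
    rw [key, Equiv.apply_symm_apply]
    push_cast
    rfl
  cases c with
  | true =>
    left
    refine fin X fun x => ?_
    simpa using hl x
  | false =>
    right
    refine fin Y fun x => ?_
    have h1 : φ (l x) ∉ X := by simpa using hl x
    have h2 := hXY (Finset.mem_image_of_mem φ (Finset.mem_univ (l x)))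
    rcases Finset.mem_union.1 h2 with h | h
    · exact absurd h h1
    · exact h

/-- There is a function `C` such that for every finite `S ⊆ ℕ` Maker has a `C |S|`-move strategy
in the game `G(S)`. -/
theorem result : ∃ C : ℕ → ℕ, ∀ S : Finset ℕ, Wins S (C S.card) ∅ ∅ := by
  choose N hN using board
  refine ⟨fun n => N n + 2, fun S => ?_⟩
  obtain ⟨V, hV, h⟩ := hN S.card S rfl
  show Wins S (N S.card + 2) ∅ ∅
  rcases dicho S V.card ∅ ∅ V rfl (fun X Y _ _ hF => h X Y hF) with h1 | h1
  · exact wins_le S _ _ _ _ ((transfer S V.card).1 _ _ _ _ h1 le_rfl (by simp)) (by omega)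
  · refine wins_le S _ _ (V.card + 1 + 1) _ ⟨0, by simp, by simp, Or.inr fun y _ _ => ?_⟩
      (by omega)
    exact (transfer S V.card).2 _ _ _ _ h1 (by simp) (by simp) y

end Pool.Agent.Results.MP_3e1131_co.Bounded
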